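import Pool.Agent.H62LR.Homotopy

/-!
First order conditions at a touch point of a family of real-rooted polynomials.
-/

open Polynomial Finset Filter Topology

namespace Pool.Agent.TP80

open Pool.Agent.H62LR

/-- moments -/
noncomputable def Nm (n : ℕ) (a : ℕ → ℝ) (i : ℕ) (x : ℝ) : ℝ :=
  ∑ k ∈ range (n + 1), (k : ℝ) ^ i * (a k * x ^ k)

/-- the Euler derivative -/
noncomputable def eu (p : ℝ[X]) : ℝ[X] := X * derivative p

lemma eu_mul (p q : ℝ[X]) : eu (p * q) = eu p * q + p * eu q := by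
  unfold eu
  rw [derivative_mul]
  ring

lemma eu_C (c : ℝ) : eu (C c) = 0 := by simp [eu]

lemma eu_lin (ρ : ℝ) : eu (1 + C ρ * X) = C ρ * X := by
  unfold eu
  simp

lemma eu_CX (ρ : ℝ) : eu (C ρ * X) = C ρ * X := by
  unfold eu
  simp

lemma eval_eu_poly (n : ℕ) (a : ℕ → ℝ) (x : ℝ) : (eu (poly n a)).eval x = Nm n a 1 x := by
  unfold eu poly Nm
  rw [derivative_sum, eval_mul, eval_X, eval_finsetSum, Finset.mul_sum]
  refine Finset.sum_congr rfl (fun k _ => ?_)
  rw [derivative_monomial, eval_monomial]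
  rcases Nat.eq_zero_or_pos k with h | h
  · subst h; simp
  · obtain ⟨j, rfl⟩ := Nat.exists_eq_succ_of_ne_zero h.ne'
    rw [Nat.succ_sub_one, pow_one, pow_succ]
    ring

lemma eval_eu_eu_poly (n : ℕ) (a : ℕ → ℝ) (x : ℝ) :
    (eu (eu (poly n a))).eval x = Nm n a 2 x := by
  have h1 : eu (poly n a) = poly n (fun k => (k : ℝ) * a k) := by
    unfold eu poly
    rw [derivative_sum, Finset.mul_sum]
    refine Finset.sum_congr rfl (fun k _ => ?_)
    rw [derivative_monomial]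
    rcases Nat.eq_zero_or_pos k with h | h
    · subst h; simp
    · obtain ⟨j, rfl⟩ := Nat.exists_eq_succ_of_ne_zero h.ne'
      rw [Nat.succ_sub_one, X_mul_monomial]
      congr 1
      ring
  rw [h1, eval_eu_poly]
  unfold Nm
  refine Finset.sum_congr rfl (fun k _ => ?_)
  ring

/-- the Laguerre inequality with Euler derivatives, for products of factors `1 + ρ x` -/
lemma laguerre_prod (m : Multiset ℝ) (hm : ∀ ρ ∈ m, 0 < ρ) {x : ℝ} (hx : x < 0) :
    ((m.map (fun ρ => (1 : ℝ[X]) + C ρ * X)).prod).eval x *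
      (eu (eu (m.map (fun ρ => (1 : ℝ[X]) + C ρ * X)).prod)).eval x ≤
      ((eu (m.map (fun ρ => (1 : ℝ[X]) + C ρ * X)).prod).eval x) ^ 2 := by
  induction m using Multiset.induction_on with
  | empty =>
    have : eu (1 : ℝ[X]) = 0 := by simp [eu]
    simp only [Multiset.map_zero, Multiset.prod_zero, this]
    simp [eu]
  | cons ρ m ih =>
    have ih' := ih (fun y hy => hm y (Multiset.mem_cons_of_mem hy))
    have hρ := hm ρ (Multiset.mem_cons_self _ _)
    rw [Multiset.map_cons, Multiset.prod_cons]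
    set q := (m.map (fun ρ => (1 : ℝ[X]) + C ρ * X)).prod
    have e1 : eu ((1 + C ρ * X) * q) = C ρ * X * q + (1 + C ρ * X) * eu q := by
      rw [eu_mul, eu_lin]
    have e2 : eu (eu ((1 + C ρ * X) * q)) =
        C ρ * X * q + 2 * (C ρ * X * eu q) + (1 + C ρ * X) * eu (eu q) := by
      rw [e1]
      have : eu (C ρ * X * q + (1 + C ρ * X) * eu q) =
          eu (C ρ * X * q) + eu ((1 + C ρ * X) * eu q) := by
        unfold eu
        rw [derivative_add]
        ring
      rw [this, eu_mul (C ρ * X) q, eu_mul (1 + C ρ * X) (eu q), eu_lin, eu_CX]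
      ring
    rw [e2, e1]
    simp only [eval_mul, eval_add, eval_C, eval_X, eval_one, eval_ofNat]
    have h1 : ρ * x < 0 := mul_neg_of_pos_of_neg hρ hx
    set A := q.eval x
    set B := (eu q).eval x
    set D := (eu (eu q)).eval x
    have h2 : (1 + ρ * x) * A * (ρ * x * A + 2 * (ρ * x * B) + (1 + ρ * x) * D) -
        (ρ * x * A + (1 + ρ * x) * B) ^ 2 = (1 + ρ * x) ^ 2 * (A * D - B ^ 2) + ρ * x * A ^ 2 := by
      ring
    have h3 : (1 + ρ * x) ^ 2 * (A * D - B ^ 2) ≤ 0 :=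
      mul_nonpos_of_nonneg_of_nonpos (sq_nonneg _) (by linarith)
    have h4 : ρ * x * A ^ 2 ≤ 0 := mul_nonpos_of_nonpos_of_nonneg h1.le (sq_nonneg _)
    linarith

/-- the Laguerre inequality with Euler derivatives -/
theorem laguerre {n : ℕ} {a : ℕ → ℝ} (ha : PF n a) {x : ℝ} (hx : x < 0) :
    Nm n a 0 x * Nm n a 2 x ≤ Nm n a 1 x ^ 2 := by
  obtain ⟨m, hcard, hpos, hprod⟩ := ha.exists_roots
  have h := laguerre_prod m hpos hx
  have h0 : (poly n a).eval x = Nm n a 0 x := by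
    rw [eval_poly]
    unfold Nm
    simp
  have e1 : eu (poly n a) = C (a 0) * eu ((m.map (fun ρ => (1 : ℝ[X]) + C ρ * X)).prod) := by
    rw [hprod, eu_mul, eu_C]
    ring
  have e2 : eu (eu (poly n a)) =
      C (a 0) * eu (eu ((m.map (fun ρ => (1 : ℝ[X]) + C ρ * X)).prod)) := by
    rw [e1, eu_mul, eu_C]
    ring
  rw [← h0, ← eval_eu_poly, ← eval_eu_eu_poly, e2, e1, hprod]
  simp only [eval_mul, eval_C]
  have h2 : 0 ≤ a 0 ^ 2 := sq_nonneg _
  nlinarith

/-- **First order condition.** A family `w ↦ a w` of real-rooted polynomials (near `w₀`) whose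
member at `w₀` has a double zero at `x < 0`: the derivative of the value at `x` vanishes. -/
theorem touch_first {n : ℕ} {x w₀ : ℝ} (hx : x < 0) (a : ℝ → ℕ → ℝ) (a' : ℕ → ℝ)
    (hd : ∀ k ≤ n, HasDerivAt (fun w => a w k) (a' k) w₀)
    (hreal : ∀ᶠ w in 𝓝 w₀, PF n (a w)) (h0 : Nm n (a w₀) 0 x = 0) (h1 : Nm n (a w₀) 1 x = 0)
    (h2 : Nm n (a w₀) 2 x ≠ 0) : Nm n a' 0 x = 0 := by
  have hN : ∀ i, HasDerivAt (fun w => Nm n (a w) i x) (Nm n a' i x) w₀ := by
    intro i
    unfold Nm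
    refine HasDerivAt.fun_sum (fun k hk => ?_)
    have hk' : k ≤ n := by simpa [Nat.lt_succ_iff] using hk
    exact ((hd k hk').mul_const _).const_mul _
  have hL : HasDerivAt (fun w => Nm n (a w) 1 x ^ 2 - Nm n (a w) 0 x * Nm n (a w) 2 x)
      (-(Nm n a' 0 x * Nm n (a w₀) 2 x)) w₀ := by
    refine (((hN 1).pow 2).sub ((hN 0).mul (hN 2))).congr_deriv ?_
    rw [h0, h1]
    simp
  have hmin : IsLocalMin (fun w => Nm n (a w) 1 x ^ 2 - Nm n (a w) 0 x * Nm n (a w) 2 x) w₀ := by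
    filter_upwards [hreal] with w hw
    have := laguerre hw hx
    rw [h0, h1]
    linarith
  have h3 := hmin.hasDerivAt_eq_zero hL
  rcases mul_eq_zero.1 (neg_eq_zero.1 h3) with h | h
  · exact h
  · exact absurd h h2

/-- the first order condition for `r`-th powers of `b + w c` -/
theorem touch_first_rpow {n : ℕ} {r x w₀ : ℝ} (hx : x < 0) (hr : r ≠ 0) (b c : ℕ → ℝ)
    (hpos : ∀ k ≤ n, 0 < b k + w₀ * c k)
    (hreal : ∀ᶠ w in 𝓝 w₀, PF n (fun k => (b k + w * c k) ^ r))
    (h0 : ∑ k ∈ range (n + 1), (b k + w₀ * c k) ^ r * x ^ k = 0)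
    (h1 : ∑ k ∈ range (n + 1), (k : ℝ) * ((b k + w₀ * c k) ^ r * x ^ k) = 0)
    (h2 : ∑ k ∈ range (n + 1), (k : ℝ) ^ 2 * ((b k + w₀ * c k) ^ r * x ^ k) ≠ 0) :
    ∑ k ∈ range (n + 1), (b k + w₀ * c k) ^ (r - 1) * c k * x ^ k = 0 := by
  have h := touch_first (n := n) hx (fun w k => (b k + w * c k) ^ r)
    (fun k => r * (b k + w₀ * c k) ^ (r - 1) * c k) (fun k hk => by
      have h3 : HasDerivAt (fun w => b k + w * c k) (c k) w₀ := by
        simpa using ((hasDerivAt_id w₀).mul_const (c k)).const_add (b k)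
      have h4 := h3.rpow_const (p := r) (Or.inl (hpos k hk).ne')
      refine h4.congr_deriv ?_
      ring) hreal (by simpa [Nm] using h0) (by simpa [Nm] using h1) (by simpa [Nm] using h2)
  unfold Nm at h
  simp only [pow_zero, one_mul] at h
  have e : ∑ k ∈ range (n + 1), r * (b k + w₀ * c k) ^ (r - 1) * c k * x ^ k =
      r * ∑ k ∈ range (n + 1), (b k + w₀ * c k) ^ (r - 1) * c k * x ^ k := by
    rw [Finset.mul_sum]
    exact Finset.sum_congr rfl fun k _ => by ring
  rw [e] at h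
  rcases mul_eq_zero.1 h with h | h
  · exact absurd h hr
  · exact h

end Pool.Agent.TP80
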