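import Pool.Agent.TP80.Deriv

/-!
First order condition at a touch point of arbitrary multiplicity.
-/

open Polynomial Finset Filter Topology

namespace Pool.Agent.TP80

open Pool.Agent.H62LR

/-- a real-rooted polynomial is not small near a real point where it is large -/
lemma prod_lower (m : Multiset ℝ) (x : ℝ) (w : ℂ) :
    ‖((m.map (fun ρ : ℝ => (1 : ℂ) + ρ * x)).prod)‖ * |w.im| ^ (Multiset.card m) ≤
      ‖w‖ ^ (Multiset.card m) * ‖((m.map (fun ρ : ℝ => (1 : ℂ) + ρ * (x + w))).prod)‖ := by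
  induction m using Multiset.induction_on with
  | empty => simp
  | cons ρ m ih =>
    rw [Multiset.map_cons, Multiset.prod_cons, Multiset.map_cons, Multiset.prod_cons,
      Multiset.card_cons, norm_mul, norm_mul, pow_succ, pow_succ]
    have h1 : ‖(1 : ℂ) + ρ * x‖ * |w.im| ≤ ‖w‖ * ‖(1 : ℂ) + ρ * (x + w)‖ := by
      have e1 : (1 : ℂ) + ρ * x = ((1 + ρ * x : ℝ) : ℂ) := by push_cast; ring
      have e2 : ‖(1 : ℂ) + ρ * x‖ = |1 + ρ * x| := by rw [e1, Complex.norm_real, Real.norm_eq_abs]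
      have e3 : (((1 : ℂ) + ρ * (x + w)) * (starRingEnd ℂ) w).im = -((1 + ρ * x) * w.im) := by
        simp [Complex.mul_im, Complex.add_im, Complex.add_re, Complex.mul_re]
        ring
      have h2 := Complex.abs_im_le_norm (((1 : ℂ) + ρ * (x + w)) * (starRingEnd ℂ) w)
      rw [e3, abs_neg, abs_mul, norm_mul, Complex.norm_conj] at h2
      rw [e2]
      linarith
    calc ‖(1 : ℂ) + ρ * x‖ * ‖(m.map (fun ρ : ℝ => (1 : ℂ) + ρ * x)).prod‖ *
          (|w.im| ^ (Multiset.card m) * |w.im|)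
        = (‖(m.map (fun ρ : ℝ => (1 : ℂ) + ρ * x)).prod‖ * |w.im| ^ (Multiset.card m)) *
            (‖(1 : ℂ) + ρ * x‖ * |w.im|) := by ring
      _ ≤ (‖w‖ ^ (Multiset.card m) * ‖(m.map (fun ρ : ℝ => (1 : ℂ) + ρ * (x + w))).prod‖) *
            (‖w‖ * ‖(1 : ℂ) + ρ * (x + w)‖) := by
          apply mul_le_mul ih h1 (by positivity) (by positivity)
      _ = ‖w‖ ^ (Multiset.card m) * ‖w‖ * (‖(1 : ℂ) + ρ * (x + w)‖ *
            ‖(m.map (fun ρ : ℝ => (1 : ℂ) + ρ * (x + w))).prod‖) := by ring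

lemma PF.near {n : ℕ} {a : ℕ → ℝ} (ha : PF n a) (x : ℝ) (w : ℂ) :
    ‖ev n a x‖ * |w.im| ^ n ≤ ‖w‖ ^ n * ‖ev n a (x + w)‖ := by
  obtain ⟨m, hcard, hpos, hprod⟩ := ha.exists_roots
  have h : ∀ z : ℂ, ev n a z = (a 0 : ℂ) * (m.map (fun ρ : ℝ => (1 : ℂ) + ρ * z)).prod := by
    intro z
    rw [← aeval_poly, hprod, map_mul, aeval_C, map_multiset_prod, Multiset.map_map]
    congr 2
    refine Multiset.map_congr rfl fun ρ _ => ?_
    simp
  have h1 := prod_lower m x w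
  rw [hcard] at h1
  rw [h, h, norm_mul, norm_mul]
  have h2 := mul_le_mul_of_nonneg_left h1 (norm_nonneg (a 0 : ℂ))
  linarith

/-- **First order condition.** A family `w ↦ a w` of real-rooted polynomials (near `w₀`) whose
member at `w₀` has a multiple zero at `x < 0`: the derivative of the value at `x` vanishes. -/
theorem touch_first_mult {n : ℕ} {x w₀ : ℝ} (hx : x < 0) (a : ℝ → ℕ → ℝ) (a' : ℕ → ℝ)
    (hd : ∀ k ≤ n, HasDerivAt (fun w => a w k) (a' k) w₀)
    (hreal : ∀ᶠ w in 𝓝 w₀, PF n (a w)) (h0 : Nm n (a w₀) 0 x = 0)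
    (h1 : Nm n (a w₀) 1 x = 0) : Nm n a' 0 x = 0 := by
  by_contra hδ
  set δ := Nm n a' 0 x with hδdef
  have hPF : PF n (a w₀) := hreal.self_of_nhds
  -- the factorisation at the multiple zero
  set P := poly n (a w₀) with hP
  have hP0 : P ≠ 0 := by
    intro h
    have h2 := coeff_poly n (a w₀) 0
    rw [← hP, h, if_pos (Nat.zero_le _)] at h2
    simp at h2
    exact (hPF.1 0 (Nat.zero_le _)).ne h2
  have hroot : P.IsRoot x := by
    rw [IsRoot.def, hP, eval_poly]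
    simpa [Nm] using h0
  have hroot' : P.derivative.IsRoot x := by
    have h2 := eval_eu_poly n (a w₀) x
    rw [h1] at h2
    unfold eu at h2
    rw [eval_mul, eval_X] at h2
    rcases mul_eq_zero.1 h2 with h3 | h3
    · exact absurd h3 hx.ne
    · exact h3
  obtain ⟨μ, hμ⟩ : ∃ μ, μ = P.rootMultiplicity x := ⟨_, rfl⟩
  have hμ2 : 2 ≤ μ := by
    rw [hμ]
    exact (one_lt_rootMultiplicity_iff_isRoot hP0).2 ⟨hroot, hroot'⟩
  obtain ⟨g, hg, hgx⟩ := exists_eq_pow_rootMultiplicity_mul_and_not_dvd P hP0 x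
  rw [← hμ] at hg
  have hγ : g.eval x ≠ 0 := fun h => hgx (dvd_iff_isRoot.2 h)
  set γ := g.eval x with hγdef
  have hμ0 : (0 : ℝ) < μ := by exact_mod_cast (by omega : 0 < μ)
  -- the direction
  obtain ⟨ζ, hζ⟩ : ∃ ζ : ℂ, ζ = Complex.exp (((Real.pi / μ : ℝ) : ℂ) * Complex.I) := ⟨_, rfl⟩
  have hζn : ‖ζ‖ = 1 := by rw [hζ]; exact Complex.norm_exp_ofReal_mul_I _
  have hζμ : ζ ^ μ = -1 := by
    rw [hζ, ← Complex.exp_nat_mul]
    have : (μ : ℂ) * (((Real.pi / μ : ℝ) : ℂ) * Complex.I) = Real.pi * Complex.I := by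
      have h3 : (μ : ℂ) ≠ 0 := by exact_mod_cast hμ0.ne'
      push_cast
      field_simp
    rw [this, Complex.exp_pi_mul_I]
  have hζim : 0 < ζ.im := by
    rw [hζ, Complex.exp_ofReal_mul_I_im]
    apply Real.sin_pos_of_pos_of_lt_pi
    · exact div_pos Real.pi_pos hμ0
    · rw [div_lt_iff₀ hμ0]
      have h2 : (2 : ℝ) ≤ μ := by exact_mod_cast hμ2
      nlinarith [Real.pi_pos]
  -- the parameter
  set W : ℝ → ℝ := fun r => w₀ + r ^ μ * (γ / δ) with hW
  have hWt : Tendsto W (𝓝[>] 0) (𝓝 w₀) := by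
    have hc : Continuous W := by fun_prop
    have := (hc.tendsto 0).mono_left (nhdsWithin_le_nhds (s := Set.Ioi (0 : ℝ)))
    simpa [hW, zero_pow (by omega : μ ≠ 0)] using this
  have hWne : ∀ r : ℝ, 0 < r → W r ≠ w₀ := by
    intro r hr h
    have h2 : r ^ μ * (γ / δ) = 0 := by
      have : w₀ + r ^ μ * (γ / δ) = w₀ := h
      linarith
    rcases mul_eq_zero.1 h2 with h3 | h3
    · exact (pow_pos hr μ).ne' h3
    · exact (div_ne_zero hγ hδ) h3
  have hWt' : Tendsto W (𝓝[>] 0) (𝓝[≠] w₀) := by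
    rw [tendsto_nhdsWithin_iff]
    refine ⟨hWt, ?_⟩
    filter_upwards [self_mem_nhdsWithin] with r hr
    exact hWne r hr
  have hD : ∀ k ≤ n, Tendsto (fun r : ℝ => (a (W r) k - a w₀ k) / r ^ μ) (𝓝[>] 0)
      (𝓝 (a' k * (γ / δ))) := by
    intro k hk
    have h2 := (hasDerivAt_iff_tendsto_slope.1 (hd k hk)).comp hWt'
    refine (h2.mul_const (γ / δ)).congr' ?_
    filter_upwards [self_mem_nhdsWithin] with r hr
    have hr0 : (0 : ℝ) < r := hr
    simp only [Function.comp_apply, slope_def_field]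
    have h3 : W r - w₀ = r ^ μ * (γ / δ) := by simp [hW]
    rw [h3]
    have h4 : r ^ μ ≠ 0 := (pow_pos hr0 μ).ne'
    have h5 : γ / δ ≠ 0 := div_ne_zero hγ hδ
    field_simp
  have hlim : ∀ ξ : ℂ, Tendsto (fun r : ℝ => ev n (a (W r)) (x + r * ξ) / (r : ℂ) ^ μ) (𝓝[>] 0)
      (𝓝 ((ξ ^ μ + 1) * γ)) := by
    intro ξ
    have hxr : Tendsto (fun r : ℝ => (x : ℂ) + r * ξ) (𝓝[>] 0) (𝓝 (x : ℂ)) := by
      have hc : Continuous (fun r : ℝ => (x : ℂ) + r * ξ) := by fun_prop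
      have := (hc.tendsto 0).mono_left (nhdsWithin_le_nhds (s := Set.Ioi (0 : ℝ)))
      simpa using this
    -- the fixed part
    have hA : Tendsto (fun r : ℝ => ξ ^ μ * aeval ((x : ℂ) + r * ξ) g) (𝓝[>] 0)
        (𝓝 (ξ ^ μ * γ)) := by
      have hc : Continuous (fun z : ℂ => aeval z g) := Polynomial.continuous_aeval g
      have h2 := (hc.tendsto (x : ℂ)).comp hxr
      have h3 : aeval (x : ℂ) g = (γ : ℂ) := by
        have := Polynomial.aeval_algebraMap_apply_eq_algebraMap_eval (A := ℂ) x g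
        simpa using this
      rw [h3] at h2
      exact h2.const_mul _
    -- the moving part
    have hB : Tendsto (fun r : ℝ => ∑ k ∈ range (n + 1),
        (((a (W r) k - a w₀ k) / r ^ μ : ℝ) : ℂ) * ((x : ℂ) + r * ξ) ^ k) (𝓝[>] 0)
        (𝓝 (∑ k ∈ range (n + 1), ((a' k * (γ / δ) : ℝ) : ℂ) * (x : ℂ) ^ k)) := by
      apply tendsto_finsetSum
      intro k hk
      have hk' : k ≤ n := by simpa [Nat.lt_succ_iff] using hk
      exact ((Complex.continuous_ofReal.tendsto _).comp (hD k hk')).mul (hxr.pow k)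
    have hBval : ∑ k ∈ range (n + 1), ((a' k * (γ / δ) : ℝ) : ℂ) * (x : ℂ) ^ k = γ := by
      have h2 : ∑ k ∈ range (n + 1), a' k * (γ / δ) * x ^ k = γ := by
        have h3 : ∑ k ∈ range (n + 1), a' k * (γ / δ) * x ^ k = δ * (γ / δ) := by
          rw [hδdef]
          unfold Nm
          rw [Finset.sum_mul]
          refine Finset.sum_congr rfl fun k _ => ?_
          simp only [pow_zero, one_mul]
          ring
        rw [h3]
        field_simp
      calc ∑ k ∈ range (n + 1), ((a' k * (γ / δ) : ℝ) : ℂ) * (x : ℂ) ^ k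
          = ((∑ k ∈ range (n + 1), a' k * (γ / δ) * x ^ k : ℝ) : ℂ) := by push_cast; rfl
        _ = γ := by rw [h2]
    rw [hBval] at hB
    have hsum := hA.add hB
    have e : ξ ^ μ * (γ : ℂ) + γ = (ξ ^ μ + 1) * γ := by ring
    rw [e] at hsum
    refine hsum.congr' ?_
    filter_upwards [self_mem_nhdsWithin] with r hr
    have hr0 : (0 : ℝ) < r := hr
    have hrc : (r : ℂ) ^ μ ≠ 0 := pow_ne_zero _ (by exact_mod_cast hr0.ne')
    rw [eq_div_iff hrc]
    have e1 : ev n (a (W r)) (x + r * ξ) = ev n (a w₀) (x + r * ξ) +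
        ∑ k ∈ range (n + 1), ((a (W r) k - a w₀ k : ℝ) : ℂ) * ((x : ℂ) + r * ξ) ^ k := by
      unfold ev
      rw [← Finset.sum_add_distrib]
      refine Finset.sum_congr rfl fun k _ => ?_
      push_cast
      ring
    have e2 : ev n (a w₀) (x + r * ξ) = (r : ℂ) ^ μ * (ξ ^ μ * aeval ((x : ℂ) + r * ξ) g) := by
      rw [← aeval_poly, ← hP]
      conv_lhs => rw [hg]
      rw [map_mul, map_pow, map_sub, aeval_X, aeval_C]
      have : (x : ℂ) + r * ξ - (algebraMap ℝ ℂ) x = r * ξ := by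
        simp
      rw [this, mul_pow]
      ring
    have e3 : (∑ k ∈ range (n + 1), (((a (W r) k - a w₀ k) / r ^ μ : ℝ) : ℂ) *
        ((x : ℂ) + r * ξ) ^ k) * (r : ℂ) ^ μ =
        ∑ k ∈ range (n + 1), ((a (W r) k - a w₀ k : ℝ) : ℂ) * ((x : ℂ) + r * ξ) ^ k := by
      rw [Finset.sum_mul]
      refine Finset.sum_congr rfl fun k _ => ?_
      push_cast
      field_simp
    rw [e1, e2, add_mul, e3]
    ring
  have l0 := hlim 0
  have l1 := hlim ζ
  rw [zero_pow (by omega : μ ≠ 0), zero_add, one_mul] at l0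
  rw [hζμ, neg_add_cancel, zero_mul] at l1
  have hev : ∀ᶠ r in 𝓝[>] (0 : ℝ), ‖ev n (a (W r)) (x + r * 0) / (r : ℂ) ^ μ‖ * |ζ.im| ^ n ≤
      ‖ev n (a (W r)) (x + r * ζ) / (r : ℂ) ^ μ‖ := by
    filter_upwards [self_mem_nhdsWithin, hWt.eventually hreal] with r hr hPFr
    have hr0 : (0 : ℝ) < r := hr
    have h2 := PF.near hPFr x ((r : ℂ) * ζ)
    have h3 : ((r : ℂ) * ζ).im = r * ζ.im := by simp
    have h4 : ‖(r : ℂ) * ζ‖ = r := by
      rw [norm_mul, hζn, mul_one, Complex.norm_real, Real.norm_eq_abs, abs_of_pos hr0]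
    rw [h3, h4, abs_mul, abs_of_pos hr0, mul_pow] at h2
    have h5 : ‖ev n (a (W r)) x‖ * |ζ.im| ^ n ≤ ‖ev n (a (W r)) (x + r * ζ)‖ := by
      have h6 : r ^ n * (‖ev n (a (W r)) x‖ * |ζ.im| ^ n) ≤
          r ^ n * ‖ev n (a (W r)) (x + r * ζ)‖ := by linarith
      exact le_of_mul_le_mul_left h6 (pow_pos hr0 n)
    rw [mul_zero, add_zero, norm_div, norm_div, div_mul_eq_mul_div]
    exact div_le_div_of_nonneg_right h5 (norm_nonneg _)
  have hfin : ‖(γ : ℂ)‖ * |ζ.im| ^ n ≤ ‖(0 : ℂ)‖ :=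
    le_of_tendsto_of_tendsto (l0.norm.mul_const _) l1.norm hev
  rw [norm_zero] at hfin
  have h7 : 0 < ‖(γ : ℂ)‖ * |ζ.im| ^ n := by
    apply mul_pos
    · rw [norm_pos_iff]
      exact_mod_cast hγ
    · exact pow_pos (abs_pos.2 hζim.ne') n
  linarith

end Pool.Agent.TP80
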