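import Pool.Agent.TP80.Deriv2

/-!
The first order condition at a touch point of the `r`-th Hadamard powers, for every root.
-/

open Polynomial Finset Filter Topology

namespace Pool.Agent.TP80

open Pool.Agent.H62LR

/-- the coefficients of `(1 + ρ z) q(z)` -/
noncomputable def lin (ρ : ℝ) (n : ℕ) (q : ℕ → ℝ) (k : ℕ) : ℝ :=
  (if k ≤ n then q k else 0) + ρ * (if k = 0 then 0 else q (k - 1))

lemma ev_lin (ρ : ℝ) (n : ℕ) (q : ℕ → ℝ) (z : ℂ) :
    ev (n + 1) (lin ρ n q) z = (1 + ρ * z) * ev n q z := by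
  unfold ev
  have h1 : ∑ k ∈ range (n + 1 + 1), ((lin ρ n q k : ℝ) : ℂ) * z ^ k =
      (∑ k ∈ range (n + 1 + 1), (((if k ≤ n then q k else 0 : ℝ)) : ℂ) * z ^ k) +
        ∑ k ∈ range (n + 1 + 1), ((ρ * (if k = 0 then 0 else q (k - 1)) : ℝ) : ℂ) * z ^ k := by
    rw [← Finset.sum_add_distrib]
    refine Finset.sum_congr rfl fun k _ => ?_
    unfold lin
    push_cast
    ring
  rw [h1, Finset.sum_range_succ, Finset.sum_range_succ' (fun k =>
    ((ρ * (if k = 0 then 0 else q (k - 1)) : ℝ) : ℂ) * z ^ k)]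
  have h2 : ∑ k ∈ range (n + 1), (((if k ≤ n then q k else 0 : ℝ)) : ℂ) * z ^ k =
      ∑ k ∈ range (n + 1), (q k : ℂ) * z ^ k := by
    refine Finset.sum_congr rfl fun k hk => ?_
    rw [if_pos (by simpa [Nat.lt_succ_iff] using hk)]
  rw [h2, if_neg (by omega : ¬ n + 1 ≤ n)]
  have h3 : ∑ k ∈ range (n + 1), ((ρ * (if k + 1 = 0 then 0 else q (k + 1 - 1)) : ℝ) : ℂ) *
      z ^ (k + 1) = ρ * z * ∑ k ∈ range (n + 1), (q k : ℂ) * z ^ k := by
    rw [Finset.mul_sum]
    refine Finset.sum_congr rfl fun k _ => ?_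
    rw [if_neg (by omega), Nat.add_sub_cancel]
    push_cast
    ring
  rw [h3]
  simp
  ring

lemma lin_pos {ρ : ℝ} {n : ℕ} {q : ℕ → ℝ} (hρ : 0 < ρ) (hq : ∀ k ≤ n, 0 < q k) :
    ∀ k ≤ n + 1, 0 < lin ρ n q k := by
  intro k hk
  unfold lin
  rcases Nat.eq_zero_or_pos k with h | h
  · subst h
    simpa using hq 0 (Nat.zero_le _)
  · rw [if_neg h.ne']
    have h1 : 0 < ρ * q (k - 1) := mul_pos hρ (hq _ (by omega))
    split_ifs with h2
    · exact add_pos (hq k h2) h1
    · linarith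

lemma pf_lin {ρ : ℝ} {n : ℕ} {q : ℕ → ℝ} (hρ : 0 < ρ) (hq : PF n q) :
    PF (n + 1) (lin ρ n q) := by
  refine ⟨lin_pos hρ hq.1, fun z hz => ?_⟩
  rw [ev_lin]
  refine mul_ne_zero (fun h => ?_) (hq.2 z hz)
  have h1 : ((1 : ℂ) + ρ * z).im = ρ * z.im := by simp
  rw [h] at h1
  have := mul_pos hρ hz
  simp at h1
  rcases h1 with h1 | h1
  · exact hρ.ne' h1
  · exact hz.ne' h1

/-- **The conditions at a touch point.** If all `r`-th Hadamard powers of `PF (n + 1)` are
real-rooted and the one of `(1 + ρ z) q(z)` has a multiple zero at `-X`, then the value at `-X` has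
zero derivative with respect to `ρ`. -/
theorem touch_deriv {n : ℕ} {r X ρ : ℝ} {q : ℕ → ℝ} (hX : 0 < X) (hr : r ≠ 0)
    (hW : ∀ b, PF (n + 1) b → PF (n + 1) (fun k => b k ^ r)) (hρ : 0 < ρ) (hq : PF n q)
    (h0 : ∑ k ∈ range (n + 2), lin ρ n q k ^ r * (-X) ^ k = 0)
    (h1 : ∑ k ∈ range (n + 2), (k : ℝ) * (lin ρ n q k ^ r * (-X) ^ k) = 0) :
    ∑ k ∈ range (n + 1), lin ρ n q (k + 1) ^ (r - 1) * q k * (-X) ^ (k + 1) = 0 := by
  have hpos := lin_pos hρ hq.1
  have h := touch_first_mult (n := n + 1) (x := -X) (w₀ := ρ) (by linarith)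
    (fun w k => lin w n q k ^ r)
    (fun k => r * lin ρ n q k ^ (r - 1) * (if k = 0 then 0 else q (k - 1))) (fun k hk => by
      have h3 : HasDerivAt (fun w => lin w n q k) (if k = 0 then 0 else q (k - 1)) ρ := by
        unfold lin
        simpa using ((hasDerivAt_id ρ).mul_const (if k = 0 then (0 : ℝ) else q (k - 1))).const_add
          (if k ≤ n then q k else 0)
      have h4 := h3.rpow_const (p := r) (Or.inl (hpos k hk).ne')
      refine h4.congr_deriv ?_
      ring) (by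
      filter_upwards [eventually_gt_nhds hρ] with w hw
      exact hW _ (pf_lin hw hq)) (by simpa [Nm] using h0) (by simpa [Nm] using h1)
  unfold Nm at h
  rw [Finset.sum_range_succ'] at h
  simp only [pow_zero, one_mul, if_true, mul_zero, zero_mul, add_zero, Nat.add_sub_cancel,
    Nat.add_eq_zero_iff, one_ne_zero, and_false, if_false] at h
  have e : ∑ k ∈ range (n + 1), r * lin ρ n q (k + 1) ^ (r - 1) * q k * (-X) ^ (k + 1) =
      r * ∑ k ∈ range (n + 1), lin ρ n q (k + 1) ^ (r - 1) * q k * (-X) ^ (k + 1) := by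
    rw [Finset.mul_sum]
    exact Finset.sum_congr rfl fun k _ => by ring
  rw [e] at h
  rcases mul_eq_zero.1 h with h | h
  · exact absurd h hr
  · exact h

end Pool.Agent.TP80
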